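import Pool.Agent.Lib.MP_1a91b9_nuT3.S9.Defs
import Pool.Agent.Lib.MP_1a91b9_nuT.S4.TwoAdic

/-!
# The `p`-part of the conjecture of Birch and Swinnerton-Dyer, with a rational quotient
-/

set_option autoImplicit false

namespace Pool.Agent.Lib.MP_1a91b9_nuT3.S9

variable [Pool.Agent.Lib.MP_1a91b9_nuT.CD]

open NumberField IsDedekindDomain WeierstrassCurve Pool.Agent.Lib.MP_1a91b9_nuT
open Pool.Agent.Lib.MP_1a91b9_nuT.S9 (Sha tam normFactor period)

open scoped Classical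

variable {N : Type*} [Field N] [NumberField N]


/-- The `p`-part of the formula of Birch and Swinnerton-Dyer for `W` over `N` when the regulator
is `1`, where `g` is the continuation of the L-series of `W`:
`g(1) √|D| / Ω = q * #Sha[p^∞] * ∏ c_v / #W(N)²` with a rational number `q` whose numerator and
denominator are prime to `p`. -/
def FormulaQ (p : ℕ) [Fact p.Prime] (W : WeierstrassCurve N) (g : ℂ → ℂ) : Prop :=
  ∃ q : ℚ, IsCoprime q.num (p : ℤ) ∧ q.den.Coprime p ∧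
    g 1 * (√|(discr N : ℝ)| : ℝ) / (period W : ℝ) =
      (q * ((Nat.card (ShaP p W) : ℝ) * ((∏ᶠ v : HeightOneSpectrum (𝓞 N), tam W v : ℕ) : ℝ) /
        (Nat.card W.toAffine.Point : ℝ) ^ 2) : ℝ)

/-- A rational number which becomes integral after multiplication by an integer prime to `p` has
denominator prime to `p`. -/
theorem den_coprime {p : ℕ} {q : ℚ}
    (h : ∃ m : ℤ, IsCoprime m (p : ℤ) ∧ IsIntegral ℤ ((m : ℝ) * (q : ℝ))) : q.den.Coprime p := by
  obtain ⟨m, hm, hi⟩ := h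
  have h1 : IsIntegral ℤ ((m : ℚ) * q) := by
    rw [← isIntegral_algebraMap_iff (algebraMap ℚ ℝ).injective]
    simpa using hi
  obtain ⟨k, hk⟩ := IsIntegrallyClosed.isIntegral_iff.1 h1
  have hk' : (k : ℚ) = (m : ℚ) * q := hk
  have h2 : (k : ℚ) * (q.den : ℚ) = (m : ℚ) * (q.num : ℚ) := by
    rw [hk', mul_assoc, Rat.mul_den_eq_num]
  have h3 : k * (q.den : ℤ) = m * q.num := by exact_mod_cast h2
  have h4 : (q.den : ℤ) ∣ m * q.num := ⟨k, by linarith⟩
  have h5 : IsCoprime (q.den : ℤ) q.num := by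
    rw [isCoprime_comm, Int.isCoprime_iff_gcd_eq_one]
    exact q.reduced
  have h6 : (q.den : ℤ) ∣ m := h5.dvd_of_dvd_mul_right h4
  obtain ⟨c, rfl⟩ := h6
  have h7 : IsCoprime (q.den : ℤ) (p : ℤ) := IsCoprime.of_mul_left_left hm
  exact Nat.isCoprime_iff_coprime.1 h7

theorem num_coprime {p : ℕ} {q : ℚ} (hq : q ≠ 0)
    (h : ∃ m : ℤ, IsCoprime m (p : ℤ) ∧ IsIntegral ℤ ((m : ℝ) * (q : ℝ)⁻¹)) :
    IsCoprime q.num (p : ℤ) := by
  have h1 : (q⁻¹).den.Coprime p := den_coprime (by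
    push_cast
    exact h)
  have h2 : (q⁻¹).den = q.num.natAbs := by
    rw [Rat.den_inv_of_ne_zero hq]
  rw [h2] at h1
  rw [Int.isCoprime_iff_gcd_eq_one]
  have h3 : Nat.gcd q.num.natAbs p = 1 := h1
  rw [Int.gcd, Int.natAbs_natCast]
  exact h3

theorem rat_normFactor (W : WeierstrassCurve N) :
    ∃ q : ℚ, (q : ℝ) = ∏ᶠ v : HeightOneSpectrum (𝓞 N), normFactor W v := by
  refine finprod_induction (p := fun x : ℝ => ∃ q : ℚ, (q : ℝ) = x) ⟨1, by norm_num⟩ ?_ ?_
  · rintro x y ⟨a, rfl⟩ ⟨b, rfl⟩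
    exact ⟨a * b, by push_cast; ring⟩
  · intro v
    exact ⟨(Ideal.absNorm v.asIdeal : ℚ) ^ (-(WithZero.log
      (Valued.v ((MP_1a91b9_nuT.S9.minChange W v).u : v.adicCompletion N)))), by
        rw [normFactor]; push_cast; rfl⟩

theorem finprod_normFactor_ne (W : WeierstrassCurve N) :
    ∏ᶠ v : HeightOneSpectrum (𝓞 N), normFactor W v ≠ 0 := by
  refine finprod_induction (p := fun x : ℝ => x ≠ 0) one_ne_zero
    (fun _ _ => mul_ne_zero) fun v => ?_
  rw [normFactor]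
  refine zpow_ne_zero _ ?_
  have := Ideal.absNorm_ne_zero_iff_mem_nonZeroDivisors.mpr
    (mem_nonZeroDivisors_iff_ne_zero.mpr v.ne_bot)
  exact_mod_cast this


end Pool.Agent.Lib.MP_1a91b9_nuT3.S9
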